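import Mathlib

namespace Pool.Agent.Results.MP_6659c6_co.Log

open Finset
open Classical

variable {n : ℕ}

/-- `S` is a total dominating set of `G` -/
def TD (G : SimpleGraph (Fin n)) (S : Finset (Fin n)) : Prop := ∀ v, ∃ u ∈ S, G.Adj v u

/-- the total domination number -/
noncomputable def gt (G : SimpleGraph (Fin n)) : ℕ := sInf {k | ∃ S, TD G S ∧ S.card = k}

/-- `r` is admissible for `Δ`; `r_Δ` is the least admissible `r` -/
def Adm (Δ : ℕ) (r : ℝ) : Prop :=
  ∀ (n : ℕ) (G : SimpleGraph (Fin n)), 3 ≤ n → G.Connected → G.maxDegree ≤ Δ →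
    (G.edgeFinset.card : ℝ) ≤ 1 / 2 * (Δ + r) * (n - gt G)

noncomputable def wt (p : ℝ) (R : Finset (Fin n)) : ℝ := p ^ R.card * (1 - p) ^ (univ \ R).card

lemma miss_prob (p : ℝ) (A : Finset (Fin n)) :
    ∑ R : Finset (Fin n), wt p R * (if Disjoint R A then 1 else 0) = (1 - p) ^ A.card := by
  have h := prod_add (fun v => if v ∈ A then 0 else p) (fun _ => 1 - p) (univ : Finset (Fin n))
  have h2 : ∏ v : Fin n, ((if v ∈ A then 0 else p) + (1 - p)) = (1 - p) ^ A.card := by
    rw [← prod_const, ← prod_ite_mem_eq A]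
    exact prod_congr rfl fun v _ => by split_ifs <;> ring
  rw [← h2, h, powerset_univ]
  refine sum_congr rfl fun R _ => ?_
  rw [wt, prod_const]
  split_ifs with hd
  · rw [mul_one, prod_congr rfl fun v hv => if_neg (disjoint_left.1 hd hv), prod_const]
  · obtain ⟨v, h1, h2⟩ := not_disjoint_iff.1 hd
    rw [mul_zero, prod_eq_zero (f := fun v => if v ∈ A then 0 else p) h1 (if_pos h2), zero_mul]

lemma exists_le (p : ℝ) (h0 : 0 ≤ p) (h1 : p ≤ 1) (W U : Finset (Fin n)) (N : Fin n → Finset (Fin n)) :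
    ∃ R : Finset (Fin n), ((R ∩ W).card : ℝ) + (U.filter (fun v => Disjoint R (N v))).card ≤
      p * W.card + ∑ v ∈ U, (1 - p) ^ (N v).card := by
  have tot : ∑ R : Finset (Fin n), wt p R = 1 := by simpa using miss_prob (n := n) p ∅
  have e : ∑ R : Finset (Fin n), wt p R * (((R ∩ W).card : ℝ) + (U.filter (fun v => Disjoint R (N v))).card) =
      p * W.card + ∑ v ∈ U, (1 - p) ^ (N v).card := by
    have e1 : ∀ R : Finset (Fin n), ((R ∩ W).card : ℝ) = ∑ v ∈ W, (1 - if Disjoint R {v} then 1 else 0) := fun R => by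
      rw [inter_comm, ← filter_mem_eq_inter, card_filter]; push_cast
      exact sum_congr rfl fun v _ => by by_cases h : v ∈ R <;> simp [h]
    simp only [e1, card_filter, Nat.cast_sum, Nat.cast_ite, Nat.cast_one, Nat.cast_zero, mul_add, mul_sum,
      sum_add_distrib, mul_sub, mul_one]
    rw [sum_comm, sum_comm (s := univ)]
    simp only [sum_sub_distrib, miss_prob, tot]
    simp; ring
  by_contra hc
  push Not at hc
  have hw : ∀ R : Finset (Fin n), 0 ≤ wt p R := fun R => mul_nonneg (pow_nonneg h0 _) (pow_nonneg (by linarith) _)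
  obtain ⟨R, -, hR⟩ : ∃ R ∈ (univ : Finset (Finset (Fin n))), 0 < wt p R := by
    by_contra h
    push Not at h
    have := sum_nonpos h
    linarith
  have := sum_lt_sum (s := univ) (fun R _ => mul_le_mul_of_nonneg_left (hc R).le (hw R))
    ⟨R, mem_univ _, mul_lt_mul_of_pos_left (hc R) hR⟩
  rw [e, ← sum_mul, tot] at this
  linarith

lemma convex (p c K : ℝ) (h0 : 0 ≤ p) (h1 : p ≤ 1) (a b d : ℕ) (ha : a ≤ d) (hb : d ≤ b)
    (k1 : (1 - p) ^ a + c * a ≤ K) (k2 : (1 - p) ^ b + c * b ≤ K) : (1 - p) ^ d + c * d ≤ K := by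
  have mono : ∀ i j, i ≤ j → p * (1 - p) ^ j ≤ p * (1 - p) ^ i := fun i j h =>
    mul_le_mul_of_nonneg_left (pow_le_pow_of_le_one (by linarith) (by linarith) h) h0
  rcases le_total c (p * (1 - p) ^ d) with h | h
  · have : ∀ j, a ≤ j → j ≤ d → (1 - p) ^ j + c * j ≤ K := by
      intro j hj hj'
      induction j, hj using Nat.le_induction with
      | base => exact k1
      | succ j hj ih =>
        have := ih (by omega)
        have := mono j d (by omega)
        rw [pow_succ]; push_cast; nlinarith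
    exact this d ha le_rfl
  · have : ∀ j, d ≤ j → (1 - p) ^ d + c * d ≤ (1 - p) ^ j + c * j := by
      intro j hj
      induction j, hj using Nat.le_induction with
      | base => exact le_rfl
      | succ j hj ih =>
        have := mono d j hj
        rw [pow_succ]; push_cast; nlinarith
    exact (this b hb).trans k2

lemma logs (D : ℝ) (h : 36 ≤ D) : 3 ≤ Real.log D ∧ (Real.log D + 1) * (Real.log D + 2) ≤ D := by
  have e1 := Real.exp_one_lt_d9
  have e0 := Real.exp_pos 1
  constructor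
  · rw [Real.le_log_iff_exp_le (by linarith), show (3 : ℝ) = 1 + 1 + 1 by norm_num, Real.exp_add, Real.exp_add]
    nlinarith
  · set s := Real.sqrt D
    have hs : s * s = D := Real.mul_self_sqrt (by linarith)
    have hs6 : 6 ≤ s := Real.le_sqrt_of_sq_le (by linarith)
    have h1 : Real.log D = 2 * Real.log (s / 4) + 4 * Real.log 2 := by
      rw [← hs, Real.log_mul (by linarith) (by linarith), Real.log_div (by linarith) (by norm_num),
        show (4 : ℝ) = 2 ^ 2 by norm_num, Real.log_pow]; push_cast; ring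
    have h2 := Real.log_le_sub_one_of_pos (show 0 < s / 4 by linarith)
    have h3 := Real.log_two_lt_d9
    have h4 : Real.log D + 2 ≤ s := by nlinarith
    have h5 : 0 ≤ Real.log D := Real.log_nonneg (by linarith)
    nlinarith

lemma local_ineq (Δ : ℕ) (h : 36 ≤ Δ) (d l : ℕ) (h2 : 2 ≤ d) (hd : d ≤ Δ) (hl : l ≤ d) :
    ((d : ℝ) + l) / (Δ + (Real.log Δ + 2)) ≤
      (if l = 0 then 1 - Real.log Δ / Δ else 0) + l - (1 - Real.log Δ / Δ) ^ (d - l) := by
  have hD : (36 : ℝ) ≤ Δ := by exact_mod_cast h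
  obtain ⟨l1, l2⟩ := logs Δ hD
  set L := Real.log Δ with hL
  set p := L / Δ with hp
  set c : ℝ := 1 / (Δ + (L + 2)) with hc
  have hpD : p * Δ = L := by rw [hp]; field_simp
  have hcD : c * (Δ + (L + 2)) = 1 := by rw [hc]; field_simp
  have c0 : 0 < c := by positivity
  have p0 : 0 < p := by positivity
  have p1 : p ≤ 1 / 4 := by rw [hp, div_le_iff₀ (by linarith)]; nlinarith
  have cp : 3 * c ≤ p := by
    rw [hc, hp, mul_one_div, div_le_div_iff₀ (by linarith) (by linarith)]; nlinarith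
  have hpow : (1 - p) ^ Δ * Δ ≤ 1 := by
    have h1 : (1 - p) ^ Δ ≤ Real.exp (-p) ^ Δ := pow_le_pow_left₀ (by linarith) (by linarith [Real.add_one_le_exp (-p)]) _
    rw [← Real.exp_nat_mul, show (Δ : ℝ) * -p = -L by linarith, Real.exp_neg, hL, Real.exp_log (by linarith)] at h1
    rwa [← le_div_iff₀ (by linarith), one_div]
  rw [div_eq_mul_one_div, ← hc]
  have hdR : (d : ℝ) ≤ Δ := by exact_mod_cast hd
  have hlR : (l : ℝ) ≤ d := by exact_mod_cast hl
  rcases l with _ | _ | l
  · have := convex p c (1 - p) p0.le (by linarith) 2 Δ d h2 hd (by push_cast; nlinarith) (by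
      refine le_of_mul_le_mul_right ?_ (show (0 : ℝ) < Δ by linarith)
      have : c * Δ * Δ ≤ Δ - L - 1 := by
        rw [hc, mul_assoc, one_div_mul_eq_div, div_le_iff₀ (by linarith)]; nlinarith
      nlinarith)
    simp; linarith
  · obtain ⟨e, rfl⟩ : ∃ e, d = e + 1 := ⟨d - 1, by omega⟩
    obtain ⟨E, hE⟩ : ∃ E, Δ = E + 1 := ⟨Δ - 1, by omega⟩
    have hER : (Δ : ℝ) = E + 1 := by exact_mod_cast hE
    have := convex p c (1 - 2 * c) p0.le (by linarith) 1 E e (by omega) (by omega) (by push_cast; linarith) (by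
      have h1 : (1 - p) ^ E * (1 - p) * Δ ≤ 1 := by rw [← pow_succ, ← hE]; exact hpow
      have h0 : 0 ≤ (1 - p) ^ E := pow_nonneg (by linarith) _
      have h3 : (1 - p) ^ E * Δ ≤ 4 / 3 := by nlinarith [mul_nonneg h0 (show (0 : ℝ) ≤ Δ by linarith)]
      have h4 : 1 - 2 * c - c * E = c * (L + 1) := by rw [hER] at hcD; linarith
      have h5 : 4 / 3 ≤ c * (L + 1) * Δ := by
        rw [hc, mul_assoc, one_div_mul_eq_div, le_div_iff₀ (by linarith)]; nlinarith
      have := le_of_mul_le_mul_right (h3.trans h5) (by linarith)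
      linarith)
    simp; linarith
  · have h1 : (1 - p) ^ (d - (l + 1 + 1)) ≤ 1 := pow_le_one₀ (by linarith) (by linarith)
    have h3 : c * (Δ + 2) ≤ 1 := by nlinarith
    have h4 : (0 : ℝ) ≤ l := Nat.cast_nonneg _
    have h5 : c ≤ 1 := by linarith
    simp only [Nat.succ_ne_zero, if_false]; push_cast
    nlinarith

theorem upper (Δ : ℕ) (h : 36 ≤ Δ) : Adm Δ (Real.log Δ + 2) := by
  intro n G hn hc hΔ
  have hD : (36 : ℝ) ≤ Δ := by exact_mod_cast h
  obtain ⟨l1, l2⟩ := logs Δ hD
  set p := Real.log Δ / Δ with hp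
  have p0 : 0 ≤ p := by positivity
  have p1 : p ≤ 1 := by rw [hp, div_le_one (by linarith)]; nlinarith
  have : Nontrivial (Fin n) := Fin.nontrivial_iff_two_le.2 (by omega)
  have dpos : ∀ v, 0 < G.degree v := fun v => hc.preconnected.degree_pos_of_nontrivial v
  set Lf := univ.filter (fun v => G.degree v = 1) with hLf
  have noK2 : ∀ u v, G.Adj u v → u ∈ Lf → v ∉ Lf := by
    intro u v huv hu hv
    have nb : ∀ x y, G.Adj x y → x ∈ Lf → ∀ z, G.Adj x z → z = y := fun x y hxy hx z hz =>
      card_le_one.1 (le_of_eq (mem_filter.1 hx).2) z (by simpa using hz) y (by simpa using hxy)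
    have key : ∀ x y (w : G.Walk x y), (x = u ∨ x = v) → (y = u ∨ y = v) := by
      intro x y w
      induction w with
      | nil => exact id
      | cons h _ ih =>
        rintro (rfl | rfl)
        · exact ih (Or.inr (nb _ _ huv hu _ h))
        · exact ih (Or.inl (nb _ _ huv.symm hv _ h))
    have : (univ : Finset (Fin n)) ⊆ {u, v} := fun y _ => by
      obtain ⟨w⟩ := hc.preconnected u y
      simpa using key u y w (Or.inl rfl)
    have := (card_le_card this).trans card_le_two
    simp at this; omega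
  set l : Fin n → ℕ := fun v => (G.neighborFinset v ∩ Lf).card with hl
  obtain ⟨R, hR⟩ := exists_le p p0 p1 (Lfᶜ.filter (fun v => l v = 0)) Lfᶜ (fun v => G.neighborFinset v \ Lf)
  have hf : ∀ v, ∃ u, G.Adj v u := fun v => (G.degree_pos_iff_exists_adj v).1 (dpos v)
  choose f hf using hf
  have hT : TD G ((R ∩ Lfᶜ.filter (fun v => l v = 0)) ∪ Lfᶜ.filter (fun v => ¬ l v = 0) ∪
      (Lfᶜ.filter (fun v => Disjoint R (G.neighborFinset v \ Lf))).image f) := by
    intro v
    by_cases hv : v ∈ Lf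
    · refine ⟨f v, mem_union_left _ (mem_union_right _ (mem_filter.2 ⟨mem_compl.2 (noK2 _ _ (hf v) hv), ?_⟩)), hf v⟩
      exact (card_pos.2 ⟨v, mem_inter.2 ⟨by simpa using (hf v).symm, hv⟩⟩).ne'
    by_cases hd : Disjoint R (G.neighborFinset v \ Lf)
    · exact ⟨f v, mem_union_right _ (mem_image_of_mem _ (mem_filter.2 ⟨mem_compl.2 hv, hd⟩)), hf v⟩
    · obtain ⟨u, h1, h2⟩ := not_disjoint_iff.1 hd
      rw [mem_sdiff] at h2
      refine ⟨u, mem_union_left _ ?_, by simpa using h2.1⟩
      by_cases h : l u = 0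
      · exact mem_union_left _ (mem_inter.2 ⟨h1, mem_filter.2 ⟨mem_compl.2 h2.2, h⟩⟩)
      · exact mem_union_right _ (mem_filter.2 ⟨mem_compl.2 h2.2, h⟩)
  have g1 : gt G ≤ _ := (Nat.sInf_le (show _ ∈ {k | ∃ S, TD G S ∧ S.card = k} from ⟨_, hT, rfl⟩)).trans
    ((card_union_le _ _).trans (add_le_add (card_union_le _ _) card_image_le))
  have g2 := (Nat.cast_le (α := ℝ)).2 g1
  push_cast at g2
  have s1 : ∑ v ∈ Lfᶜ, l v = Lf.card := by
    simp only [hl, ← filter_mem_eq_inter, card_filter]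
    have : ∀ v, ∑ u ∈ G.neighborFinset v, (if u ∈ Lf then 1 else 0) = ∑ u ∈ Lf, if G.Adj u v then 1 else 0 := fun v => by
      rw [← card_filter, ← card_filter]; congr 1; ext u; simp only [mem_filter, G.mem_neighborFinset, G.adj_comm]; tauto
    rw [sum_congr rfl fun v _ => this v, sum_comm, card_eq_sum_ones]
    refine sum_congr rfl fun u hu => ?_
    rw [← card_filter, ← (mem_filter.1 hu).2, ← G.card_neighborFinset_eq_degree]
    congr 1; ext v
    simp only [mem_filter, mem_compl, G.mem_neighborFinset]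
    exact ⟨fun h => h.2, fun h => ⟨noK2 _ _ h hu, h⟩⟩
  have s2 : 2 * G.edgeFinset.card = ∑ v ∈ Lfᶜ, (G.degree v + l v) := by
    rw [← G.sum_degrees_eq_twice_card_edges, ← sum_compl_add_sum Lf, sum_add_distrib, s1, card_eq_sum_ones]
    exact congrArg _ (sum_congr rfl fun v hv => (mem_filter.1 hv).2)
  have s3 := sum_le_sum (s := Lfᶜ) fun v hv => local_ineq Δ h (G.degree v) (l v)
    (by have := dpos v; have : G.degree v ≠ 1 := by simpa [hLf] using hv
        omega) ((G.degree_le_maxDegree v).trans hΔ) (card_le_card inter_subset_left)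
  have s4 : ∀ v, G.degree v - l v = (G.neighborFinset v \ Lf).card := fun v => by
    have := card_sdiff_add_card_inter (G.neighborFinset v) Lf
    rw [G.card_neighborFinset_eq_degree] at this
    simp only [hl]; omega
  simp only [s4] at s3
  rw [← sum_div, sum_sub_distrib, sum_add_distrib (f := fun v => if l v = 0 then _ else _), ← sum_filter, sum_const, nsmul_eq_mul, ← hp,
    div_le_iff₀ (by linarith)] at s3
  have s2' : 2 * (G.edgeFinset.card : ℝ) = ∑ v ∈ Lfᶜ, ((G.degree v : ℝ) + l v) := by exact_mod_cast s2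
  have s1' : ∑ v ∈ Lfᶜ, (l v : ℝ) = Lf.card := by exact_mod_cast s1
  have s5 : (Lfᶜ.filter (fun v => l v = 0)).card + (Lfᶜ.filter (fun v => ¬ l v = 0)).card + Lf.card = n := by
    rw [card_filter_add_card_filter_not, card_compl_add_card, Fintype.card_fin]
  have s5' : ((Lfᶜ.filter (fun v => l v = 0)).card : ℝ) + (Lfᶜ.filter (fun v => ¬ l v = 0)).card + Lf.card = n := by
    exact_mod_cast s5
  rw [← s2', s1'] at s3
  have hpos : (0 : ℝ) ≤ Δ + (Real.log Δ + 2) := by linarith
  have s6 := s3.trans (mul_le_mul_of_nonneg_right (show _ ≤ (n : ℝ) - gt G by linarith) hpos)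
  linarith


lemma mode (N s : ℕ) (hs : s ≤ N) : N ^ N ≤ (N + 1) * (N.choose s * s ^ s * (N - s) ^ (N - s)) := by
  obtain ⟨e, rfl⟩ := Nat.exists_eq_add_of_le hs
  rw [Nat.add_sub_cancel_left]
  set u : ℕ → ℕ := fun k => (s + e).choose k * s ^ k * e ^ (s + e - k) with hu
  have hrec : ∀ k < s + e, u (k + 1) * ((k + 1) * e) = u k * ((s + e - k) * s) := fun k hk => by
    have h1 := Nat.choose_succ_right_eq (s + e) k
    simp only [hu]
    rw [show s + e - k = (s + e - (k + 1)) + 1 by omega] at h1 ⊢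
    calc _ = ((s + e).choose (k + 1) * (k + 1)) * (s ^ k * s * e ^ (s + e - (k + 1)) * e) := by ring
      _ = _ := by rw [h1]; ring
  have up : ∀ d k, k + d = s → u k ≤ u s := by
    intro d
    induction d with
    | zero => intro k h; rw [← h]; rfl
    | succ d ih =>
      intro k h
      refine le_trans ?_ (ih (k + 1) (by omega))
      have h1 := hrec k (by omega)
      obtain ⟨c, hc⟩ : ∃ c, s + e - k = e + c + 1 := ⟨s - k - 1, by omega⟩
      refine Nat.le_of_mul_le_mul_right (c := (s + e - k) * s) ?_ (Nat.mul_pos (by omega) (by omega))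
      rw [← h1, hc]
      exact Nat.mul_le_mul_left _ (by rw [mul_comm]; exact Nat.mul_le_mul (by omega) (by omega))
  have down : ∀ k, s ≤ k → k ≤ s + e → u k ≤ u s := by
    intro k hk
    induction k, hk using Nat.le_induction with
    | base => exact fun _ => le_rfl
    | succ k hk ih =>
      intro h
      refine le_trans ?_ (ih (by omega))
      refine Nat.le_of_mul_le_mul_right (c := (k + 1) * e) ?_ (Nat.mul_pos (by omega) (by omega))
      rw [hrec k (by omega)]
      exact Nat.mul_le_mul_left _ (by rw [mul_comm]; exact Nat.mul_le_mul (by omega) (by omega))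
  have h := add_pow s e (s + e)
  have h2 := sum_le_card_nsmul (range (s + e + 1)) u (u s) fun k hk => by
    rcases le_total k s with h | h
    · exact up (s - k) k (by omega)
    · exact down k h (by have := mem_range.1 hk; omega)
  rw [card_range, smul_eq_mul] at h2
  simp only [hu, Nat.add_sub_cancel_left] at h2
  refine le_trans (le_of_eq ?_) h2
  rw [h]
  exact sum_congr rfl fun k _ => by simp only [Nat.cast_id]; ring

lemma fibre {N : ℕ} (T : Finset (Fin N)) (y : Fin N → Bool) :
    (univ.filter (fun σ : Equiv.Perm (Fin N) => ∀ a, decide (σ a ∈ T) = y a)).card ≤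
      T.card.factorial * (N - T.card).factorial := by
  have ce : ∀ (p q : Fin N → Prop), Nat.card ({a // p a} ≃ {a // q a}) ≤ (Nat.card {a // q a}).factorial := by
    intro p q
    rw [Nat.card_eq_fintype_card, Nat.card_eq_fintype_card]
    rcases isEmpty_or_nonempty ({a // p a} ≃ {a // q a}) with h | ⟨⟨e⟩⟩
    · simp
    · rw [Fintype.card_equiv e, Fintype.card_congr e]
  have h := Fintype.card_le_of_injective
    (fun σ : {σ : Equiv.Perm (Fin N) // ∀ a, decide (σ a ∈ T) = y a} =>
      ((σ.1.subtypeEquiv (p := fun a => y a = true) (q := fun b => b ∈ T) fun a => by rw [← σ.2 a]; simp),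
       (σ.1.subtypeEquiv (p := fun a => ¬ y a = true) (q := fun b => b ∉ T) fun a => by rw [← σ.2 a]; simp)))
    (fun σ τ h => by
      refine Subtype.ext (Equiv.ext fun a => ?_)
      by_cases ha : y a = true
      · exact congrArg Subtype.val (Equiv.ext_iff.1 (Prod.ext_iff.1 h).1 ⟨a, ha⟩)
      · exact congrArg Subtype.val (Equiv.ext_iff.1 (Prod.ext_iff.1 h).2 ⟨a, ha⟩))
  rw [Fintype.card_subtype, ← Nat.card_eq_fintype_card, Nat.card_prod] at h
  refine h.trans (Nat.mul_le_mul ((ce _ _).trans (le_of_eq ?_)) ((ce _ _).trans (le_of_eq ?_)))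
  · simp
  · simp

lemma cover {N D : ℕ} (T X : Finset (Fin N)) (t : ℝ) (h0 : 0 ≤ t) (h1 : t ≤ 1) :
    ((univ.filter (fun π : Fin D → Equiv.Perm (Fin N) => ∀ a ∉ X, ∃ i, π i a ∈ T)).card : ℝ) *
      (t ^ T.card * (1 - t) ^ (N - T.card)) ^ D ≤
      ((T.card.factorial * (N - T.card).factorial : ℕ) : ℝ) ^ D * (1 - (1 - t) ^ D) ^ (N - X.card) := by
  set ω : Bool → ℝ := fun b => if b then t else 1 - t with hω
  have ω0 : ∀ b, 0 ≤ ω b := fun b => by cases b <;> simp [hω, h0, h1]
  set g : Fin N → (Fin D → Bool) → ℝ := fun a y => (∏ i, ω (y i)) * if a ∉ X ∧ y = fun _ => false then 0 else 1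
  have g0 : ∀ a y, 0 ≤ g a y := fun a y => mul_nonneg (prod_nonneg fun i _ => ω0 _) (by split_ifs <;> norm_num)
  have tot : ∑ y : Fin D → Bool, ∏ i, ω (y i) = 1 := by
    rw [← Fintype.piFinset_univ, ← prod_univ_sum]; simp [hω]
  have e1 : ∑ f : Fin N → Fin D → Bool, ∏ a, g a (f a) = (1 - (1 - t) ^ D) ^ (N - X.card) := by
    rw [← Fintype.piFinset_univ, ← prod_univ_sum, show N - X.card = Xᶜ.card by simp [card_compl], ← prod_const,
      ← prod_ite_mem_eq Xᶜ]
    refine prod_congr rfl fun a _ => ?_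
    by_cases ha : a ∈ X
    · simp [g, ha, tot]
    · have : ∀ y : Fin D → Bool, g a y = ∏ i, ω (y i) - if y = fun _ => false then ∏ i, ω (y i) else 0 := fun y => by
        by_cases h : y = fun _ => false <;> simp [g, ha, h]
      simp only [this, sum_sub_distrib, tot]
      simp [ha, hω]
  set φ : (Fin D → Equiv.Perm (Fin N)) → Fin N → Fin D → Bool := fun π a i => decide (π i a ∈ T)
  set B := univ.filter (fun π : Fin D → Equiv.Perm (Fin N) => ∀ a ∉ X, ∃ i, π i a ∈ T)
  have e2 : ∀ π ∈ B, ∏ a, g a (φ π a) = (t ^ T.card * (1 - t) ^ (N - T.card)) ^ D := fun π hπ => by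
    have h := (mem_filter.1 hπ).2
    have : ∀ a, g a (φ π a) = ∏ i, ω (φ π a i) := fun a => by
      simp only [g]
      rw [if_neg, mul_one]
      rintro ⟨ha, he⟩
      obtain ⟨i, hi⟩ := h a ha
      simpa [φ, hi] using congrFun he i
    rw [prod_congr rfl fun a _ => this a, prod_comm, ← Fin.prod_const]
    refine prod_congr rfl fun i _ => ?_
    rw [← Equiv.prod_comp (π i).symm]
    simp only [φ, hω, Equiv.apply_symm_apply, decide_eq_true_eq]
    rw [prod_ite, prod_const, prod_const, filter_mem_eq_inter, univ_inter, filter_not, filter_mem_eq_inter, univ_inter,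
      card_univ_sdiff, Fintype.card_fin]
  rw [← nsmul_eq_mul, ← sum_const, ← sum_congr rfl e2, ← e1, mul_sum,
    ← sum_fiberwise_of_maps_to (g := φ) (t := univ) (fun _ _ => mem_univ _)]
  refine sum_le_sum fun f _ => ?_
  rw [sum_congr rfl (g := fun _ => ∏ a, g a (f a)) fun π hπ => by rw [(mem_filter.1 hπ).2], sum_const, nsmul_eq_mul]
  refine mul_le_mul_of_nonneg_right ?_ (prod_nonneg fun a _ => g0 _ _)
  have : B.filter (fun π => φ π = f) ⊆ Fintype.piFinset (fun i =>
      univ.filter (fun σ : Equiv.Perm (Fin N) => ∀ a, decide (σ a ∈ T) = f a i)) := fun π hπ =>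
    Fintype.mem_piFinset.2 fun i => mem_filter.2 ⟨mem_univ _, fun a => congrFun (congrFun (mem_filter.1 hπ).2 a) i⟩
  have h2 := card_le_card this
  rw [Fintype.card_piFinset] at h2
  have h3 := h2.trans (prod_le_pow_card univ _ _ fun i _ => fibre T (fun a => f a i))
  rw [card_univ, Fintype.card_fin] at h3
  exact_mod_cast h3

lemma cover' {N D : ℕ} (hN : 0 < N) (T X : Finset (Fin N)) :
    ((univ.filter (fun π : Fin D → Equiv.Perm (Fin N) => ∀ a ∉ X, ∃ i, π i a ∈ T)).card : ℝ) ≤
      (N.factorial : ℝ) ^ D * ((N + 1) ^ D * (1 - (1 - T.card / N) ^ D) ^ (N - X.card)) := by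
  have hs : T.card ≤ N := by simpa using card_le_univ T
  have hN' : (0 : ℝ) < N := by exact_mod_cast hN
  have t1 : (T.card : ℝ) / N ≤ 1 := by rw [div_le_one hN']; exact_mod_cast hs
  have h := cover (D := D) T X (T.card / N) (by positivity) t1
  set s := T.card
  have h1 : (N : ℝ) ^ N ≤ (N + 1) * (N.choose s * s ^ s * (N - s) ^ (N - s)) := by
    have := (Nat.cast_le (α := ℝ)).2 (mode N s hs)
    push_cast [Nat.cast_sub hs] at this
    exact this
  have h2 : (N.choose s : ℝ) * s.factorial * (N - s).factorial = N.factorial := by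
    exact_mod_cast Nat.choose_mul_factorial_mul_factorial hs
  set w := ((s : ℝ) / N) ^ s * (1 - s / N) ^ (N - s) with hw
  have h3 : w * N ^ N = s ^ s * (N - s) ^ (N - s) := by
    have : (N : ℝ) ^ N = N ^ s * N ^ (N - s) := by rw [← pow_add, Nat.add_sub_cancel' hs]
    rw [this, hw, mul_mul_mul_comm, ← mul_pow, ← mul_pow, div_mul_cancel₀ _ hN'.ne', sub_mul, div_mul_cancel₀ _ hN'.ne', one_mul]
  have h4 : 1 ≤ (N + 1) * N.choose s * w := by
    refine le_of_mul_le_mul_right ?_ (pow_pos hN' N)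
    rw [one_mul, mul_assoc, h3]; linarith
  have h5 : 1 ≤ ((N + 1) * N.choose s * w) ^ D := one_le_pow₀ h4
  calc _ ≤ _ := le_mul_of_one_le_right (Nat.cast_nonneg _) h5
    _ = ((N + 1) * N.choose s) ^ D * (_ * w ^ D) := by rw [mul_pow]; ring
    _ ≤ _ := mul_le_mul_of_nonneg_left h (by positivity)
    _ = _ := by rw [← h2]; push_cast; simp only [mul_pow]; ring

lemma coll {N D : ℕ} [NeZero N] (i j : Fin D) (hij : i ≠ j) (a : Fin N) :
    N * (univ.filter (fun π : Fin D → Equiv.Perm (Fin N) => π i a = π j a)).card ≤ N.factorial ^ D := by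
  have h := card_le_card_of_injOn (s := univ ×ˢ univ.filter (fun π : Fin D → Equiv.Perm (Fin N) => π i a = π j a))
    (t := univ) (fun p : Fin N × (Fin D → Equiv.Perm (Fin N)) => Function.update p.2 i ((p.2 i).trans (Equiv.addRight p.1)))
    (by simp) (fun p hp q hq h => by
      have hp' : p.2 i a = p.2 j a := by simpa using hp
      have hq' : q.2 i a = q.2 j a := by simpa using hq
      have e1 := congrFun h i
      have e2 : ∀ k, k ≠ i → p.2 k = q.2 k := fun k hk => by simpa [Function.update_of_ne hk] using congrFun h k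
      simp only [Function.update_self] at e1
      have e3 := Equiv.ext_iff.1 e1 a
      simp only [Equiv.trans_apply, Equiv.coe_addRight] at e3
      rw [hp', hq', e2 j hij.symm, add_right_inj] at e3
      refine Prod.ext e3 (funext fun k => ?_)
      by_cases hk : k = i
      · subst hk
        refine Equiv.ext fun b => ?_
        have := Equiv.ext_iff.1 e1 b
        simpa [e3] using this
      · exact e2 k hk)
  simpa [Fintype.card_perm] using h


lemma good {N D s : ℕ} [NeZero N] (h3 : 3 * D * D ≤ N)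
    (hnum : (3 : ℝ) * (N.choose s * N.choose (4 * s) * ((N + 1) ^ D * (1 - (1 - s / N) ^ D) ^ (N - 4 * s))) < 1) :
    ∃ π : Fin D → Equiv.Perm (Fin N),
      (∀ T X : Finset (Fin N), T.card = s → X.card = 4 * s → ∃ a ∉ X, ∀ i, π i a ∉ T) ∧
      (∀ T X : Finset (Fin N), T.card = s → X.card = 4 * s → ∃ a ∉ X, ∀ i, (π i).symm a ∉ T) ∧
      (univ.filter (fun p : Fin N × Fin D × Fin D => p.2.1 ≠ p.2.2 ∧ π p.2.1 p.1 = π p.2.2 p.1)).card ≤ N := by
  have hN : 0 < N := Nat.pos_of_ne_zero (NeZero.ne N)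
  set B1 := (powersetCard s univ ×ˢ powersetCard (4 * s) univ).biUnion (fun p : Finset (Fin N) × Finset (Fin N) =>
    univ.filter (fun π : Fin D → Equiv.Perm (Fin N) => ∀ a ∉ p.2, ∃ i, π i a ∈ p.1))
  set cl : (Fin D → Equiv.Perm (Fin N)) → ℕ := fun π =>
    (univ.filter (fun p : Fin N × Fin D × Fin D => p.2.1 ≠ p.2.2 ∧ π p.2.1 p.1 = π p.2.2 p.1)).card
  have M0 : (0 : ℝ) < (N.factorial : ℝ) ^ D := by positivity
  have c1 : 3 * B1.card < N.factorial ^ D := by
    have h1 : (B1.card : ℝ) ≤ _ := (Nat.cast_le.2 card_biUnion_le).trans (by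
      push_cast
      exact sum_le_card_nsmul _ _ ((N.factorial : ℝ) ^ D * ((N + 1) ^ D * (1 - (1 - s / N) ^ D) ^ (N - 4 * s))) fun p hp => by
        obtain ⟨e1, e2⟩ := mem_product.1 hp
        have := cover' (D := D) hN p.1 p.2
        rwa [(mem_powersetCard.1 e1).2, (mem_powersetCard.1 e2).2] at this)
    rw [card_product, card_powersetCard, card_powersetCard, card_univ, Fintype.card_fin, nsmul_eq_mul] at h1
    have h2 := mul_lt_mul_of_pos_left hnum M0
    have : (3 : ℝ) * B1.card < (N.factorial : ℝ) ^ D := by push_cast at h1; nlinarith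
    exact_mod_cast this
  have c2 : (B1.image (fun π i => (π i).symm)).card ≤ B1.card := card_image_le
  have c3 : 3 * (univ.filter (fun π => N < cl π)).card ≤ N.factorial ^ D := by
    have h1 : N * ∑ π, cl π ≤ N * (D * D) * N.factorial ^ D := by
      simp only [cl, card_filter]
      rw [sum_comm, mul_sum]
      refine (sum_le_card_nsmul _ _ (N.factorial ^ D) fun p _ => ?_).trans (by simp)
      by_cases h : p.2.1 = p.2.2
      · simp [h]
      · have := coll p.2.1 p.2.2 h p.1
        rw [card_filter] at this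
        simpa [h] using this
    have h2 : (univ.filter (fun π => N < cl π)).card * N ≤ ∑ π, cl π :=
      (card_nsmul_le_sum _ _ _ fun π hπ => (mem_filter.1 hπ).2.le).trans (sum_le_sum_of_subset (filter_subset _ _))
    rw [mul_assoc] at h1
    have h4 := h2.trans (Nat.le_of_mul_le_mul_left h1 hN)
    refine Nat.le_of_mul_le_mul_right ?_ hN
    nlinarith [Nat.mul_le_mul_right (N.factorial ^ D) h3]
  have : ∃ π, π ∉ B1 ∪ B1.image (fun π i => (π i).symm) ∪ univ.filter (fun π => N < cl π) := by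
    by_contra hc
    push Not at hc
    have h1 := card_le_card (fun π _ => hc π : univ ⊆ _)
    have h2 := h1.trans ((card_union_le _ _).trans (Nat.add_le_add_right (card_union_le _ _) _))
    simp only [card_univ, Fintype.card_fun, Fintype.card_perm, Fintype.card_fin] at h2
    omega
  obtain ⟨π, hπ⟩ := this
  simp only [mem_union, not_or] at hπ
  have key : ∀ ρ ∉ B1, ∀ T X : Finset (Fin N), T.card = s → X.card = 4 * s → ∃ a ∉ X, ∀ i, ρ i a ∉ T := by
    intro ρ hρ T X hT hX
    by_contra hc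
    push Not at hc
    exact hρ (mem_biUnion.2 ⟨(T, X), by simp [hT, hX], mem_filter.2 ⟨mem_univ _, hc⟩⟩)
  exact ⟨π, key π hπ.1.1, key _ fun h => hπ.1.2 (mem_image.2 ⟨_, h, rfl⟩), by simpa using hπ.2⟩

lemma inst {N D s : ℕ} {r : ℝ} (hN : 2 ≤ N) (hs : 4 * s ≤ N) (π : Fin D → Equiv.Perm (Fin N))
    (h1 : ∀ T X : Finset (Fin N), T.card = s → X.card = 4 * s → ∃ a ∉ X, ∀ i, π i a ∉ T)
    (h2 : ∀ T X : Finset (Fin N), T.card = s → X.card = 4 * s → ∃ a ∉ X, ∀ i, (π i).symm a ∉ T)
    (h3 : (univ.filter (fun p : Fin N × Fin D × Fin D => p.2.1 ≠ p.2.2 ∧ π p.2.1 p.1 = π p.2.2 p.1)).card ≤ N)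
    (hA : Adm (D + 2) r) (hD : 2 ≤ D) : ((D : ℝ) - 1) * N ≤ (D + 2 + r) * (N - s) := by
  obtain ⟨G, hG⟩ : ∃ G : SimpleGraph (Fin (N + N)), ∀ u v, G.Adj u v ↔ (u.val + 1 = v.val ∨ v.val + 1 = u.val) ∨
      (∃ a i, u = Fin.castAdd N a ∧ v = Fin.natAdd N (π i a)) ∨ ∃ a i, v = Fin.castAdd N a ∧ u = Fin.natAdd N (π i a) :=
    ⟨⟨fun u v => (u.val + 1 = v.val ∨ v.val + 1 = u.val) ∨ (∃ a i, u = Fin.castAdd N a ∧ v = Fin.natAdd N (π i a)) ∨
      ∃ a i, v = Fin.castAdd N a ∧ u = Fin.natAdd N (π i a), ⟨fun u v h => h.imp Or.symm Or.symm⟩, ⟨fun u h => by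
        rcases h with h | ⟨a, i, rfl, h⟩ | ⟨a, i, rfl, h⟩
        · omega
        all_goals have := congrArg Fin.val h; simp at this; omega⟩⟩, fun _ _ => Iff.rfl⟩
  have ne : ∀ a b : Fin N, Fin.castAdd N a ≠ Fin.natAdd N b := fun a b h => by
    have := congrArg Fin.val h; simp at this; omega
  have conn : G.Connected := by
    obtain ⟨k, hk⟩ : ∃ k, N + N = k + 1 := ⟨N + N - 1, by omega⟩
    have : (SimpleGraph.pathGraph (N + N)).Connected := hk ▸ SimpleGraph.pathGraph_connected k
    exact this.mono fun u v h => (hG u v).2 (Or.inl (SimpleGraph.pathGraph_adj.1 h))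
  set nb : Fin (N + N) → Finset (Fin (N + N)) := fun v => univ.filter (fun u => v.val + 1 = u.val ∨ u.val + 1 = v.val)
  have nb2 : ∀ v, (nb v).card ≤ 2 := fun v => by
    refine le_trans (card_le_card_of_injOn (t := {v.val + 1, v.val - 1}) Fin.val (fun u hu => ?_)
      Fin.val_injective.injOn) card_le_two
    have : v.val + 1 = u.val ∨ u.val + 1 = v.val := by simpa [nb] using hu
    simp; omega
  have aA : ∀ a u, G.Adj (Fin.castAdd N a) u → u ∈ nb (Fin.castAdd N a) ∨ ∃ i, u = Fin.natAdd N (π i a) := by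
    intro a u h
    rcases (hG _ _).1 h with h | ⟨b, i, e, rfl⟩ | ⟨b, i, -, e⟩
    · exact Or.inl (mem_filter.2 ⟨mem_univ _, h⟩)
    · exact Or.inr ⟨i, by rw [Fin.castAdd_inj.1 e]⟩
    · exact absurd e (ne _ _)
  have aB : ∀ b u, G.Adj (Fin.natAdd N b) u → u ∈ nb (Fin.natAdd N b) ∨ ∃ i, u = Fin.castAdd N ((π i).symm b) := by
    intro b u h
    rcases (hG _ _).1 h with h | ⟨a, i, e, -⟩ | ⟨a, i, rfl, e⟩
    · exact Or.inl (mem_filter.2 ⟨mem_univ _, h⟩)
    · exact absurd e.symm (ne _ _)
    · exact Or.inr ⟨i, by rw [(Fin.natAdd_inj N).1 e]; simp⟩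
  have deg : G.maxDegree ≤ D + 2 := by
    refine G.maxDegree_le_of_forall_degree_le _ fun v => ?_
    rw [← G.card_neighborFinset_eq_degree]
    have key : ∀ f : Fin D → Fin (N + N), (∀ u, G.Adj v u → u ∈ nb v ∨ ∃ i, u = f i) → (G.neighborFinset v).card ≤ D + 2 := by
      intro f hf
      refine (card_le_card (t := univ.image f ∪ nb v) fun u hu => ?_).trans ((card_union_le _ _).trans
        (add_le_add (card_image_le.trans (by simp)) (nb2 v)))
      rcases hf u (by simpa using hu) with h | ⟨i, rfl⟩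
      · exact mem_union_right _ h
      · exact mem_union_left _ (mem_image_of_mem _ (mem_univ _))
    induction v using Fin.addCases with
    | left a => exact key _ (aA a)
    | right b => exact key _ (aB b)
  have edges : D * N ≤ G.edgeFinset.card + N := by
    have e1 := card_filter_add_card_filter_not (s := (univ : Finset (Fin N × Fin D)))
      (fun p => ∃ j, p.2 ≠ j ∧ π p.2 p.1 = π j p.1)
    have e2 : (univ.filter (fun p : Fin N × Fin D => ∃ j, p.2 ≠ j ∧ π p.2 p.1 = π j p.1)).card ≤ N := by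
      refine le_trans (card_le_card fun p hp => ?_) ((card_image_le (f := fun q : Fin N × Fin D × Fin D => (q.1, q.2.1))).trans h3)
      obtain ⟨j, hj⟩ := (mem_filter.1 hp).2
      exact mem_image.2 ⟨(p.1, p.2, j), mem_filter.2 ⟨mem_univ _, hj⟩, rfl⟩
    have e3 : (univ.filter (fun p : Fin N × Fin D => ¬ ∃ j, p.2 ≠ j ∧ π p.2 p.1 = π j p.1)).card ≤ G.edgeFinset.card := by
      refine card_le_card_of_injOn (fun p => s(Fin.castAdd N p.1, Fin.natAdd N (π p.2 p.1))) (fun p _ => ?_) fun p hp q _ h => ?_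
      · simpa using (hG _ _).2 (Or.inr (Or.inl ⟨p.1, p.2, rfl, rfl⟩))
      · have hp' : ¬ ∃ j, p.2 ≠ j ∧ π p.2 p.1 = π j p.1 := by simpa using hp
        rcases Sym2.eq_iff.1 h with ⟨a1, a2⟩ | ⟨a1, -⟩
        · have b1 := Fin.castAdd_inj.1 a1
          have b2 := (Fin.natAdd_inj N).1 a2
          refine Prod.ext b1 (by_contra fun hne => hp' ⟨q.2, hne, by rw [b2, b1]⟩)
        · exact absurd a1 (ne _ _)
    simp only [card_univ, Fintype.card_prod, Fintype.card_fin] at e1
    rw [mul_comm]; omega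
  have gam : 2 * s ≤ gt G := by
    have : Nontrivial (Fin (N + N)) := Fin.nontrivial_iff_two_le.2 (by omega)
    obtain ⟨S, hS, hc⟩ := Nat.sInf_mem (s := {k | ∃ S, TD G S ∧ S.card = k}) ⟨_, univ, fun v => by
      obtain ⟨u, hu⟩ := (G.degree_pos_iff_exists_adj v).1 (conn.preconnected.degree_pos_of_nontrivial v)
      exact ⟨u, mem_univ _, hu⟩, rfl⟩
    rw [gt, ← hc]
    by_contra hlt
    have side : ∀ (e e' : Fin N → Fin (N + N)) (ρ : Fin D → Equiv.Perm (Fin N)), Function.Injective e →
        (∀ T X : Finset (Fin N), T.card = s → X.card = 4 * s → ∃ a ∉ X, ∀ i, ρ i a ∉ T) →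
        (∀ a u, G.Adj (e a) u → u ∈ nb (e a) ∨ ∃ i, u = e' (ρ i a)) →
        s < (univ.filter (fun b => e' b ∈ S)).card := by
      intro e e' ρ he hρ ha
      by_contra hle
      obtain ⟨T, hT, -, cT⟩ := exists_subsuperset_card_eq (subset_univ (univ.filter (fun b => e' b ∈ S)))
        (not_lt.1 hle) (by simp; omega)
      have hx : (univ.filter (fun a => e a ∈ S.biUnion nb)).card ≤ 4 * s :=
        (card_le_card_of_injOn e (fun a ha => (mem_filter.1 ha).2) he.injOn).trans
          ((card_biUnion_le_card_mul _ _ 2 fun v _ => nb2 v).trans (by omega))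
      obtain ⟨X, hX, -, cX⟩ := exists_subsuperset_card_eq (subset_univ _) hx (by simpa using hs)
      obtain ⟨a, haX, hb⟩ := hρ T X cT cX
      obtain ⟨u, hu, hadj⟩ := hS (e a)
      rcases ha a u hadj with h | ⟨i, rfl⟩
      · refine haX (hX (mem_filter.2 ⟨mem_univ _, mem_biUnion.2 ⟨u, hu, mem_filter.2 ⟨mem_univ _, ?_⟩⟩⟩))
        exact (mem_filter.1 h).2.symm
      · exact hb i (hT (mem_filter.2 ⟨mem_univ _, hu⟩))
    have s1 := side _ _ π (Fin.castAdd_injective N N) h1 aA
    have s2 := side _ _ (fun i => (π i).symm) (Fin.natAdd_injective N N) h2 aB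
    have s3 : (((univ.filter (fun b => Fin.castAdd N b ∈ S)).image (Fin.castAdd N)) ∪
        (univ.filter (fun b => Fin.natAdd N b ∈ S)).image (Fin.natAdd N)).card ≤ S.card := by
      refine card_le_card fun v hv => ?_
      rcases mem_union.1 hv with h | h <;> obtain ⟨b, hb, rfl⟩ := mem_image.1 h <;> exact (mem_filter.1 hb).2
    rw [card_union_of_disjoint (disjoint_left.2 fun v h h' => by
      obtain ⟨a, -, rfl⟩ := mem_image.1 h
      obtain ⟨b, -, e⟩ := mem_image.1 h'
      exact ne _ _ e.symm), card_image_of_injective _ (Fin.castAdd_injective N N),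
      card_image_of_injective _ (Fin.natAdd_injective N N)] at s3
    omega
  have h := hA (N + N) G (by omega) conn deg
  have e1 : (D : ℝ) * N ≤ G.edgeFinset.card + N := by exact_mod_cast edges
  have e2 : 2 * (s : ℝ) ≤ gt G := by exact_mod_cast gam
  have e3 : (2 : ℝ) ≤ D := by exact_mod_cast hD
  have e4 : (2 : ℝ) ≤ N := by exact_mod_cast hN
  have e5 : (gt G : ℝ) ≤ N + N := by
    have : gt G ≤ N + N := by
      rcases {k | ∃ S, TD G S ∧ S.card = k}.eq_empty_or_nonempty with h | h
      · simp [gt, h]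
      · obtain ⟨S, -, hc⟩ := Nat.sInf_mem h
        rw [gt, ← hc]; simpa using card_le_univ S
    exact_mod_cast this
  push_cast at h
  have e6 : 0 ≤ (D : ℝ) + 2 + r := by
    by_contra hc
    push Not at hc
    nlinarith
  nlinarith


lemma choose_le (N k : ℕ) (D : ℝ) (hD : 0 < D) : (N.choose k : ℝ) ≤ Real.exp (N / D) * D ^ k := by
  rcases Nat.lt_or_ge N k with h | h
  · rw [Nat.choose_eq_zero_of_lt h, Nat.cast_zero]; positivity
  have h1 : (1 / D) ^ k * 1 ^ (N - k) * (N.choose k : ℝ) ≤ (1 / D + 1) ^ N := by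
    rw [add_pow]
    exact single_le_sum (f := fun m => (1 / D) ^ m * 1 ^ (N - m) * (N.choose m : ℝ)) (fun m _ => by positivity)
      (mem_range.2 (by omega))
  have h2 : (1 / D + 1) ^ N ≤ Real.exp (1 / D) ^ N := pow_le_pow_left₀ (by positivity) (Real.add_one_le_exp _) _
  rw [← Real.exp_nat_mul, mul_one_div] at h2
  rw [one_pow, mul_one, one_div_pow, one_div_mul_eq_div, div_le_iff₀ (by positivity)] at h1
  exact h1.trans (mul_le_mul_of_nonneg_right h2 (by positivity))

lemma lowerD (D : ℕ) (hL : 30 ≤ Real.log D) (r : ℝ) (hA : Adm (D + 2) r) :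
    Real.log D - 3 * Real.log (Real.log D) - 5 ≤ r := by
  have D0 : (0 : ℝ) < D := by
    rcases Nat.eq_zero_or_pos D with rfl | h
    · simp at hL; linarith
    · exact_mod_cast h
  set L := Real.log D with hLd
  have eL : Real.exp L = D := Real.exp_log D0
  have D1 : 5 * L ^ 2 ≤ D := by
    have := Real.pow_div_factorial_le_exp L (by linarith) 3
    rw [eL, show ((3 : ℕ).factorial : ℝ) = 6 by norm_num [Nat.factorial]] at this
    nlinarith
  have D2 : 150 * L ≤ D := by nlinarith
  have l0 : 0 ≤ Real.log L := Real.log_nonneg (by linarith)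
  have l1 : 3 * Real.log L ≤ L := by
    have h1 := Real.log_le_sub_one_of_pos (show 0 < L / 8 by linarith)
    rw [Real.log_div (by linarith) (by norm_num), show (8 : ℝ) = 2 ^ 3 by norm_num, Real.log_pow] at h1
    have := Real.log_two_lt_d9
    push_cast at h1; linarith
  set α := (L - 3 * Real.log L) / D with hα
  have a0 : 0 ≤ α := div_nonneg (by linarith) D0.le
  have a1 : α * D = L - 3 * Real.log L := by rw [hα]; field_simp
  have a2 : α ≤ 1 / 150 := by rw [hα, div_le_iff₀ D0]; linarith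
  set N := D ^ 4 with hN
  have hNR : (N : ℝ) = D ^ 3 * D := by rw [hN]; push_cast; ring
  set K : ℝ := D ^ 3 with hK
  have K1 : (D : ℝ) * D * 4500 ≤ K := by rw [hK, pow_succ, pow_two]; gcongr; linarith
  have D3 : (4500 : ℝ) ≤ D := by linarith
  have K0 : 0 < K := by positivity
  have N0 : (0 : ℝ) < N := by rw [hNR]; positivity
  set s := ⌊α * N⌋₊ with hs
  have s1 : (s : ℝ) ≤ α * N := Nat.floor_le (by positivity)
  have s2 : α * N < s + 1 := Nat.lt_floor_add_one _
  have s3 : (s : ℝ) ≤ N / 150 := by nlinarith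
  have s4 : 4 * s ≤ N := by
    have : 4 * (s : ℝ) ≤ N := by linarith
    exact_mod_cast this
  have : NeZero N := ⟨by have : 0 < N := by exact_mod_cast N0
                         omega⟩
  have n3 : 3 * D * D ≤ N := by
    have : 3 * (D : ℝ) * D ≤ N := by rw [hNR]; nlinarith
    exact_mod_cast this
  have hD2 : 2 ≤ D := by
    have : (2 : ℝ) ≤ D := by linarith
    exact_mod_cast this
  obtain ⟨π, p1, p2, p3⟩ := good (N := N) (D := D) (s := s) n3 (by
    have b1 := choose_le N s D D0
    have b2 := choose_le N (4 * s) D D0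
    rw [hNR, mul_div_cancel_right₀ _ D0.ne', ← eL, ← Real.exp_nat_mul, ← Real.exp_add] at b1 b2
    have b3 : ((N : ℝ) + 1) ^ D ≤ Real.exp (D * (5 * L)) := by
      rw [Real.exp_nat_mul]
      refine pow_le_pow_left₀ (by positivity) ?_ _
      rw [show 5 * L = (5 : ℕ) * L by norm_num, Real.exp_nat_mul, eL, hNR, show (D : ℝ) ^ 5 = K * D * D by rw [hK]; ring]
      nlinarith [mul_pos K0 D0]
    have t1 : (s : ℝ) / N ≤ α := by rw [div_le_iff₀ N0]; exact s1
    have t0 : 0 ≤ (s : ℝ) / N := by positivity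
    have y1 : Real.exp (-(α + 2 * α ^ 2)) ≤ 1 - s / N := by
      rw [Real.exp_neg, inv_le_iff_one_le_mul₀ (Real.exp_pos _)]
      have := Real.add_one_le_exp (α + 2 * α ^ 2)
      have h5 : 1 ≤ (1 - α) * (α + 2 * α ^ 2 + 1) := by nlinarith [mul_nonneg a0 a0]
      exact h5.trans (mul_le_mul (by linarith) this (by positivity) (by linarith))
    have y2 : L ^ 3 / (D * Real.exp 1) ≤ (1 - s / N) ^ D := by
      refine le_trans ?_ (pow_le_pow_left₀ (Real.exp_pos _).le y1 D)
      rw [← Real.exp_nat_mul, ← eL, ← Real.exp_add, ← Real.exp_log (show 0 < L ^ 3 by positivity), ← Real.exp_sub,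
        Real.exp_le_exp, Real.log_pow, eL]
      have h6 : α * D * (α * D) ≤ L * L := by rw [a1]; nlinarith
      have h7 : 2 * α ^ 2 * D ≤ 1 := by
        refine le_of_mul_le_mul_right ?_ D0
        nlinarith
      push_cast; nlinarith
    have y3 : (1 - s / N : ℝ) ^ D ≤ 1 := pow_le_one₀ (by linarith) (by linarith)
    set y := (1 - s / N : ℝ) ^ D
    have b4 : (1 - y) ^ (N - 4 * s) ≤ Real.exp (((N - 4 * s : ℕ) : ℝ) * -y) := by
      rw [Real.exp_nat_mul]
      exact pow_le_pow_left₀ (by linarith) (by linarith [Real.add_one_le_exp (-y)]) _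
    have e3 : (3 : ℝ) ≤ Real.exp 2 := by linarith [Real.add_one_le_exp 2]
    have b5 := mul_le_mul e3 (mul_le_mul (mul_le_mul b1 b2 (by positivity) (by positivity))
      (mul_le_mul b3 b4 (pow_nonneg (by linarith) _) (by positivity))
      (mul_nonneg (by positivity) (pow_nonneg (by linarith) _)) (by positivity))
      (mul_nonneg (by positivity) (mul_nonneg (by positivity) (pow_nonneg (by linarith) _))) (by positivity)
    refine lt_of_le_of_lt b5 ?_
    simp only [← Real.exp_add]
    rw [Real.exp_lt_one_iff, Nat.cast_sub s4]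
    push_cast
    have e1 := Real.exp_one_lt_d9
    have y4 : L ^ 3 ≤ y * (D * 2.72) := by
      rw [div_le_iff₀ (by positivity)] at y2
      refine y2.trans (mul_le_mul_of_nonneg_left (by nlinarith) (by nlinarith [pow_pos (show 0 < L by linarith) 3, mul_pos D0 (Real.exp_pos 1)]))
    have y0 : 0 ≤ y := pow_nonneg (by linarith) _
    have z1 : (s : ℝ) ≤ L * K := by rw [hNR] at s1; nlinarith
    have z2 : (s : ℝ) * L ≤ L * L * K := by nlinarith
    have z3 : K * D / 2 * y ≤ (N - 4 * s) * y := mul_le_mul_of_nonneg_right (by linarith) y0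
    have z4 : 30 * (L * L) ≤ y * (D * 2.72) := by nlinarith
    have z5 : 30 * (L * L) * K ≤ y * (D * 2.72) * K := mul_le_mul_of_nonneg_right z4 K0.le
    have z6 : 900 * K ≤ L * L * K := mul_le_mul_of_nonneg_right (by nlinarith) K0.le
    have z7 : D * (5 * L) ≤ K := by nlinarith
    have z8 : 2 ≤ K := by nlinarith
    nlinarith)
  have h := inst (r := r) (by nlinarith) s4 π p1 p2 p3 hA hD2
  by_contra hc
  push Not at hc
  have h1 : (D + 2 + r) * (N - s) ≤ (D - 3 + α * D) * (N - s) := mul_le_mul_of_nonneg_right (by linarith) (by linarith)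
  have h2 : (D - 3 + α * D) * (N - s) ≤ (D - 3 + α * D) * (N + 1 - α * N) :=
    mul_le_mul_of_nonneg_left (by linarith) (by nlinarith)
  have h3 : (D : ℝ) * 2 ≤ N := by rw [hNR]; nlinarith
  have h4 : α * N ≤ N / 150 := by nlinarith
  have h5 : 0 ≤ α * α * D * N := by positivity
  have h6 : α * D ≤ D / 150 := by nlinarith
  nlinarith

theorem result :
    (∀ Δ : ℕ, 36 ≤ Δ → Adm Δ (Real.log Δ + 2)) ∧
    (∀ Δ : ℕ, 31 ≤ Real.log Δ → ∀ r : ℝ, Adm Δ r → Real.log Δ - 3 * Real.log (Real.log Δ) - 6 ≤ r) := by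
  refine ⟨upper, fun Δ h r hA => ?_⟩
  have h1 : (32 : ℝ) ≤ Δ := by
    rcases Nat.eq_zero_or_pos Δ with rfl | h0
    · simp at h; linarith
    · linarith [Real.log_le_sub_one_of_pos (show (0 : ℝ) < Δ by exact_mod_cast h0)]
  obtain ⟨D, rfl⟩ : ∃ D, Δ = D + 2 := ⟨Δ - 2, by have : 32 ≤ Δ := by exact_mod_cast h1
                                                 omega⟩
  push_cast at h h1 ⊢
  have h2 : Real.log (D + 2) ≤ Real.log D + 1 := by
    have := Real.log_le_log (by linarith) (show (D : ℝ) + 2 ≤ D * 2 by linarith)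
    rw [Real.log_mul (by linarith) (by norm_num)] at this
    linarith [Real.log_two_lt_d9]
  have h3 := Real.log_le_log (by linarith) (show (D : ℝ) ≤ D + 2 by linarith)
  have h4 := Real.log_le_log (by linarith) h3
  have := lowerD D (by linarith) r hA
  linarith

end Pool.Agent.Results.MP_6659c6_co.Log
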